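import Pool.Agent.Lib.MP_642244_an.Grid

namespace Pool.Agent.Lib.MP_642244_an

open Filter Topology

/-- The universal property of the free space, for the two targets we need. -/
structure Univ (𝕜 : Type) [NontriviallyNormedField 𝕜] (X F : Type) [NormedAddCommGroup X]
    [NormedSpace 𝕜 X] [NormedAddCommGroup F] [NormedSpace 𝕜 F] where
  δ : X → F
  δ_zero : δ 0 = 0
  δ_lip : Lip 1 δ
  dense : Dense ((Submodule.span 𝕜 (Set.range δ) : Submodule 𝕜 F) : Set F)
  linX : ∀ (L : ℝ) (g : X → X), Lip L g → ∃ T : F →L[𝕜] X, (∀ μ, ‖T μ‖ ≤ L * ‖μ‖) ∧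
    ∀ x, T (δ x) = g x - g 0
  linK : ∀ (L : ℝ) (g : X → 𝕜), Lip L g → ∃ T : F →L[𝕜] 𝕜, ∀ x, T (δ x) = g x - g 0

variable {𝕜 : Type} [NontriviallyNormedField 𝕜] {X F : Type} [NormedAddCommGroup X]
  [NormedSpace 𝕜 X] [NormedAddCommGroup F] [NormedSpace 𝕜 F]

/-- Killed by all continuous functionals. -/
def Null (𝕜 : Type) [NontriviallyNormedField 𝕜] {F : Type} [NormedAddCommGroup F]
    [NormedSpace 𝕜 F] (μ : F) : Prop := ∀ φ : F →L[𝕜] 𝕜, φ μ = 0

namespace Univ

variable (U : Univ 𝕜 X F)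

lemma ext' {T T' : F →L[𝕜] X} (h : ∀ x, T (U.δ x) = T' (U.δ x)) : T = T' :=
  ContinuousLinearMap.ext_on U.dense (by rintro _ ⟨x, rfl⟩; exact h x)

lemma lip_comp {Z : Type} [NormedAddCommGroup Z] [NormedSpace 𝕜 Z] (T : F →L[𝕜] Z) :
    Lip ‖T‖ fun x => T (U.δ x) := fun x y => by
  rw [← map_sub]
  refine (T.le_opNorm _).trans ?_
  gcongr
  simpa using U.δ_lip x y

/-- The linearisation of `g` kills `μ`. -/
def Good (μ : F) (g : X → X) : Prop :=
  ∃ T : F →L[𝕜] X, (∀ x, T (U.δ x) = g x - g 0) ∧ T μ = 0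

variable {U}

lemma good_smul {μ : F} (hμ : Null 𝕜 μ) {L : ℝ} {ψ : X → 𝕜} (h : Lip L ψ) (z : X) :
    U.Good μ fun x => ψ x • z := by
  obtain ⟨φ, hφ⟩ := U.linK L ψ h
  exact ⟨φ.smulRight z, fun x => by simp [hφ, sub_smul], by simp [hμ φ]⟩

lemma good_sum {μ : F} {κ : Type} (s : Finset κ) (g : κ → X → X) (h : ∀ k, U.Good μ (g k)) :
    U.Good μ fun x => ∑ k ∈ s, g k x := by
  choose T hT h0 using h
  exact ⟨∑ k ∈ s, T k, fun x => by simp [hT], by simp [h0]⟩

lemma good_lim {μ : F} {L : ℝ} {g : ℕ → X → X} {g' : X → X} (hl : ∀ n, Lip L (g n))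
    (h : ∀ n, U.Good μ (g n)) (ht : ∀ x, Tendsto (fun n => g n x) atTop (𝓝 (g' x))) :
    U.Good μ g' := by
  have hl' : Lip L g' := fun x y =>
    le_of_tendsto' ((ht x).sub (ht y)).norm fun n => hl n x y
  obtain ⟨T, hTb, hT⟩ := U.linX L g' hl'
  choose T' hb hT' using fun n => U.linX L (g n) (hl n)
  have h0 : ∀ n, T' n μ = 0 := fun n => by
    obtain ⟨T'', h1, h2⟩ := h n
    rw [U.ext' (T := T' n) (T' := T'') fun x => by rw [hT', h1], h2]
  refine ⟨T, hT, ?_⟩
  have hspan : ∀ ν ∈ Submodule.span 𝕜 (Set.range U.δ),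
      Tendsto (fun n => T' n ν) atTop (𝓝 (T ν)) := by
    intro ν hν
    induction hν using Submodule.span_induction with
    | mem _ hx =>
      obtain ⟨x, rfl⟩ := hx
      simp only [hT, hT']
      exact (ht x).sub (ht 0)
    | zero => simp
    | add a b _ _ ha hb => simpa using ha.add hb
    | smul c a _ ha => simpa using ha.const_smul c
  have hle : ∀ ν, ‖T μ‖ ≤ 2 * L * ‖μ - ν‖ := by
    intro ν
    refine U.dense.induction (P := fun ν => ‖T μ‖ ≤ 2 * L * ‖μ - ν‖) (fun ν hν => ?_)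
      (isClosed_le (by fun_prop) (by fun_prop)) ν
    have h1 : Tendsto (fun n => 2 * L * ‖μ - ν‖ + ‖T ν - T' n ν‖) atTop
        (𝓝 (2 * L * ‖μ - ν‖ + ‖T ν - T ν‖)) :=
      (tendsto_const_nhds.sub (hspan ν hν)).norm.const_add _
    rw [sub_self, norm_zero, add_zero] at h1
    refine ge_of_tendsto' h1 fun n => ?_
    have e : T μ = (T (μ - ν) - T' n (μ - ν)) + (T ν - T' n ν) := by
      simp [h0]
    have a1 := hTb (μ - ν)
    have a2 := hb n (μ - ν)
    rw [e]
    refine (norm_add_le _ _).trans ((add_le_add_left (norm_sub_le _ _) _).trans ?_)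
    linarith
  simpa using hle μ

/-- The linearisation of an `e`-invariant Lipschitz map kills the null elements. -/
lemma good_of_inv (S : Scal 𝕜) (D : Data 𝕜 X) {μ : F} (hμ : Null 𝕜 μ) {L : ℝ} (hL : 0 ≤ L)
    {g : X → X} (hg : Lip L g) (hi : ∀ x (s : 𝕜), g (x + s • D.e) = g x) : U.Good μ g := by
  classical
  let σ : ℕ → X → X := fun N x => ∑ j ∈ D.T N, D.c j x • D.b j
  have hσ : ∀ N x y, σ N (x - y) = σ N x - σ N y := fun N x y => by
    simp [σ, sub_smul]
  have hcont : Continuous g := by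
    refine (LipschitzWith.of_dist_le_mul (K := ⟨L, hL⟩) fun x y => ?_).continuous
    rw [dist_eq_norm, dist_eq_norm]
    exact hg x y
  refine good_lim (L := L) (g := fun N x => g (σ N x)) (fun N x y => ?_) (fun N => ?_)
    fun x => ?_
  · refine le_of_forall_pos_le_add fun ε hε => ?_
    obtain ⟨s, hs, -⟩ := D.approx (x - y) (ε / (L + 1)) (by positivity)
    show ‖g (σ N x) - g (σ N y)‖ ≤ _
    rw [← hi (σ N x) (s N)]
    refine (hg _ _).trans ?_
    have e : σ N x + s N • D.e - σ N y = σ N (x - y) + s N • D.e := by rw [hσ]; abel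
    rw [e]
    have a1 : L * ‖σ N (x - y) + s N • D.e‖ ≤ L * (‖x - y‖ + ε / (L + 1)) := by
      gcongr; exact hs N
    have a2 : L * (ε / (L + 1)) ≤ ε := by
      rw [← mul_div_assoc, div_le_iff₀ (by positivity)]; nlinarith
    linarith
  · obtain ⟨L', s, Φ, z, h1, h2, h3⟩ := grid S (ι := D.T N)
      (fun x j => S.ι.symm (D.c j x)) (fun a => g (∑ j : D.T N, S.ι (a j) • D.b j))
      (A := ∑ j : D.T N, ‖D.c j‖) (B := L * ∑ j : D.T N, ‖D.b j‖) (by positivity)
      (by positivity)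
      (fun x y j => by
        rw [← map_sub, ← map_sub]
        refine S.abs_symm_le (((D.c j).le_opNorm _).trans ?_)
        gcongr
        exact Finset.single_le_sum (f := fun j : D.T N => ‖D.c j‖) (fun _ _ => norm_nonneg _)
          (Finset.mem_univ j))
      (fun a b r hr hab => by
        refine (hg _ _).trans ?_
        rw [mul_assoc, ← Finset.sum_sub_distrib, Finset.sum_mul]
        gcongr
        refine (norm_sum_le _ _).trans (Finset.sum_le_sum fun j _ => ?_)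
        rw [← sub_smul, ← map_sub, norm_smul, mul_comm]
        gcongr
        exact S.norm_ι_le (hab j))
    refine good_lim h2 (fun n => good_sum _ _ fun k => ?_) fun x => ?_
    · obtain ⟨C, hC⟩ := h1 n k
      exact good_smul hμ hC _
    · have := h3 x
      simp only [RingEquiv.apply_symm_apply] at this
      rwa [Finset.sum_coe_sort (D.T N) fun j => D.c j x • D.b j] at this
  · obtain ⟨s, -, hs⟩ := D.approx x 1 one_pos
    have := (hcont.tendsto x).comp hs
    refine this.congr fun N => ?_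
    exact hi _ _

/-- `F × F` is not a complemented subspace of `F`. -/
theorem no_square (S : Scal 𝕜) (D : Data 𝕜 X) (U : Univ 𝕜 X F) (P₀ P₁ R₀ R₁ : F →L[𝕜] F)
    (h00 : ∀ μ, P₀ (R₀ μ) = μ) (h11 : ∀ μ, P₁ (R₁ μ) = μ) (h01 : ∀ μ, P₀ (R₁ μ) = 0) :
    False := by
  obtain ⟨β, -, hβ⟩ := U.linX 1 id fun x y => by simp
  have hβe : β (U.δ D.e) = D.e := by simpa using hβ D.e
  have hnull : Null 𝕜 (U.δ D.e) := fun φ => by
    have := D.inv_scalar S (U.lip_comp φ) 0 1
    simpa [U.δ_zero] using this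
  have hkill : ∀ (T : F →L[𝕜] X) (R : F →L[𝕜] F),
      (∀ x (s : 𝕜), T (U.δ (x + s • D.e)) = T (U.δ x)) → T (R (U.δ D.e)) = 0 := by
    intro T R hT
    obtain ⟨T', h1, h2⟩ := good_of_inv (U := U) S D (μ := R (U.δ D.e))
      (fun φ => hnull (φ.comp R)) (norm_nonneg T) (U.lip_comp T) hT
    rw [U.ext' (T := T) (T' := T') fun x => by rw [h1]; simp [U.δ_zero], h2]
  obtain ⟨c₀, hc₀⟩ := D.rigid S (U.lip_comp (β.comp P₀))
  obtain ⟨c₁, hc₁⟩ := D.rigid S (U.lip_comp (β.comp P₁))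
  by_cases h : c₀ = 0
  · have := hkill (β.comp P₀) R₀ fun x s => by
      have := hc₀ x s
      rwa [h, zero_mul, zero_smul, sub_eq_zero] at this
    rw [ContinuousLinearMap.comp_apply, h00, hβe] at this
    exact D.e_ne this
  · have := hkill (c₁ • β.comp P₀ - c₀ • β.comp P₁) R₁ fun x s => by
      have a0 := sub_eq_iff_eq_add.1 (hc₀ x s)
      have a1 := sub_eq_iff_eq_add.1 (hc₁ x s)
      simp only [sub_apply, smul_apply, a0, a1]
      module
    simp only [sub_apply, smul_apply,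
      ContinuousLinearMap.comp_apply, h01, h11, hβe, map_zero, smul_zero, zero_sub,
      neg_eq_zero, smul_eq_zero] at this
    exact this.elim h D.e_ne

theorem isEmpty_equiv (S : Scal 𝕜) (D : Data 𝕜 X) (U : Univ 𝕜 X F) :
    IsEmpty (F ≃ₜ+ lp (fun _ : ℕ => F) 1) := by
  refine ⟨fun Φ => ?_⟩
  let A : F →L[𝕜] lp (fun _ : ℕ => F) 1 := S.toCLM Φ.toAddEquiv.toAddMonoidHom Φ.continuous
  let B : lp (fun _ : ℕ => F) 1 →L[𝕜] F :=
    S.toCLM Φ.symm.toAddEquiv.toAddMonoidHom Φ.symm.continuous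
  have hAB : ∀ y, A (B y) = y := fun y => Φ.apply_symm_apply y
  refine no_square S D U ((lp.evalCLM 𝕜 (fun _ : ℕ => F) 1 0).comp A)
    ((lp.evalCLM 𝕜 (fun _ : ℕ => F) 1 1).comp A)
    (B.comp (lp.singleContinuousLinearMap 𝕜 (fun _ : ℕ => F) 1 0))
    (B.comp (lp.singleContinuousLinearMap 𝕜 (fun _ : ℕ => F) 1 1)) ?_ ?_ ?_ <;>
  · intro μ
    simp [hAB, lp.evalCLM]

end Univ

end Pool.Agent.Lib.MP_642244_an
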