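import Mathlib

namespace Pool.Agent.Lib.MP_642244_an

open Classical in
/-- The formal symbol `δ(x)`, with `δ(0) = 0`. -/
noncomputable def dirac (R : Type) [Zero R] [One R] {X : Type} [Zero X] (x : X) :
    {y : X // y ≠ 0} →₀ R :=
  if h : x = 0 then 0 else Finsupp.single ⟨x, h⟩ 1

/-- `X` is a `p`-Banach space, the Mathlib norm being the `p`-th power of the `p`-norm. -/
def IsPBanach (p : ℝ) (X : Type) [NormedAddCommGroup X] [Module ℝ X] : Prop :=
  CompleteSpace X ∧ ∀ (t : ℝ) (x : X), ‖t • x‖ = |t| ^ p * ‖x‖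

/-- `j` is an isometric linear embedding with dense range of the span of the symbols `δ(x)`,
with the free `p`-norm, into `F`. -/
def IsFree (p : ℝ) {X F : Type} [NormedAddCommGroup X] [NormedAddCommGroup F] [Module ℝ F]
    (j : ({y : X // y ≠ 0} →₀ ℝ) →ₗ[ℝ] F) : Prop :=
  Function.Injective j ∧ DenseRange j ∧ ∀ μ, ‖j μ‖ = sInf {r : ℝ | ∃ l : List (ℝ × X × X),
    μ = (l.map fun t => t.1 • (dirac ℝ t.2.1 - dirac ℝ t.2.2)).sum ∧
    r = (l.map fun t => |t.1| ^ p * ‖t.2.1 - t.2.2‖).sum}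

end Pool.Agent.Lib.MP_642244_an
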