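import Pool.Agent.Lib.MP_642244_an.Scal

namespace Pool.Agent.Lib.MP_642244_an

open Filter Topology

variable {𝕜 : Type} [NontriviallyNormedField 𝕜]

/-- The blocks. -/
abbrev Blk (𝕜 : Type) [NontriviallyNormedField 𝕜] (n : ℕ) : Type :=
  PiLp 1 fun _ : Fin (n + 1) => 𝕜

/-- The ambient sequence space. -/
abbrev El (𝕜 : Type) [NontriviallyNormedField 𝕜] : Type := lp (Blk 𝕜) 1

namespace Scal

variable (S : Scal 𝕜)

/-- Height of the normalised block vectors. -/
noncomputable def ht (n : ℕ) : 𝕜 := S.ι ((1 / ((n : ℝ) + 1)) ^ S.p⁻¹)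

lemma norm_ht (n : ℕ) : ‖S.ht n‖ = 1 / ((n : ℝ) + 1) := by
  rw [ht, S.norm_ι, abs_of_nonneg (by positivity), Real.rpow_inv_rpow (by positivity) S.p_pos.ne']

lemma ht_ne (n : ℕ) : S.ht n ≠ 0 := by
  rw [← norm_pos_iff, norm_ht]; positivity

/-- The normalised block vector. -/
noncomputable def u (n : ℕ) : Blk 𝕜 n := WithLp.toLp 1 fun _ => S.ht n

lemma norm_u (n : ℕ) : ‖S.u n‖ = 1 := by
  rw [PiLp.norm_eq_of_L1]
  simp only [u, norm_ht, Finset.sum_const, Finset.card_univ, Fintype.card_fin, nsmul_eq_mul]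
  push_cast
  field_simp

/-- The vector `e_n`. -/
noncomputable def en (n : ℕ) : El 𝕜 := lp.single 1 n (S.u n)

/-- The closed subspace we divide by. -/
noncomputable def Ker : Submodule 𝕜 (El 𝕜) :=
  (Submodule.span 𝕜 (Set.range fun n => S.en n - S.en 0)).topologicalClosure

instance : IsClosed (S.Ker : Set (El 𝕜)) := Submodule.isClosed_topologicalClosure _

/-- The counterexample. -/
abbrev Sp : Type := El 𝕜 ⧸ S.Ker

lemma mk_en (n : ℕ) : (S.Ker.mkQ (S.en n) : S.Sp) = S.Ker.mkQ (S.en 0) := by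
  rw [← sub_eq_zero, ← map_sub, Submodule.mkQ_apply, Submodule.Quotient.mk_eq_zero]
  exact Submodule.le_topologicalClosure _ (Submodule.subset_span ⟨n, rfl⟩)

lemma norm_comb (a : ℕ →₀ 𝕜) :
    ‖a.sum fun _ c => c‖ ≤ ‖Finsupp.linearCombination 𝕜 S.en a‖ := by
  have h := lp.norm_sum_single (E := Blk 𝕜) (p := 1) (by simp) (fun n => a n • S.u n) a.support
  simp only [ENNReal.toReal_one, Real.rpow_one, norm_smul, norm_u, mul_one, lp.single_smul] at h
  rw [Finsupp.linearCombination_apply, Finsupp.sum, Finsupp.sum]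
  unfold en
  rw [h]
  exact norm_sum_le _ _

lemma en_zero_notMem : S.en 0 ∉ S.Ker := by
  intro h
  have hcl : IsClosed {x : El 𝕜 | 1 ≤ ‖S.en 0 - x‖} := isClosed_le (by fun_prop) (by fun_prop)
  have hsub : ((Submodule.span 𝕜 (Set.range fun n => S.en n - S.en 0) : Submodule 𝕜 _) : Set _)
      ⊆ {x : El 𝕜 | 1 ≤ ‖S.en 0 - x‖} := by
    intro x hx
    let τ : (ℕ →₀ 𝕜) →ₗ[𝕜] 𝕜 := Finsupp.linearCombination 𝕜 fun _ => 1
    have hτ : ∀ a, τ a = a.sum fun _ c => c := fun a => by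
      simp [τ, Finsupp.linearCombination_apply]
    have hle : Submodule.span 𝕜 (Set.range fun n => S.en n - S.en 0)
        ≤ (LinearMap.ker τ).map (Finsupp.linearCombination 𝕜 S.en) := by
      rw [Submodule.span_le]
      rintro _ ⟨n, rfl⟩
      exact ⟨Finsupp.single n 1 - Finsupp.single 0 1, by simp [τ], by simp⟩
    obtain ⟨a, ha, rfl⟩ := hle hx
    have h1 := S.norm_comb (Finsupp.single 0 1 - a)
    rw [← hτ, map_sub, map_sub, LinearMap.mem_ker.1 ha] at h1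
    simpa [τ] using h1
  have := closure_minimal hsub hcl h
  simp at this
  linarith

/-- The coordinate functionals on the ambient space. -/
noncomputable def c0 (j : Σ n : ℕ, Fin (n + 1)) : El 𝕜 →L[𝕜] 𝕜 :=
  (PiLp.proj (𝕜 := 𝕜) 1 (fun _ : Fin (j.1 + 1) => 𝕜) j.2
    - PiLp.proj (𝕜 := 𝕜) 1 (fun _ : Fin (j.1 + 1) => 𝕜) 0).comp (lp.evalCLM 𝕜 (Blk 𝕜) 1 j.1)

lemma c0_apply (j : Σ n : ℕ, Fin (n + 1)) (x : El 𝕜) : c0 j x = x j.1 j.2 - x j.1 0 := rfl

lemma c0_en (j : Σ n : ℕ, Fin (n + 1)) (n : ℕ) : c0 j (S.en n) = 0 := by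
  rw [c0_apply]
  obtain ⟨m, i⟩ := j
  by_cases h : m = n
  · subst h
    simp [en, u]
  · simp [en, Pi.single_eq_of_ne h]

lemma Ker_le (j : Σ n : ℕ, Fin (n + 1)) : S.Ker ≤ LinearMap.ker (c0 (𝕜 := 𝕜) j).toLinearMap := by
  refine Submodule.topologicalClosure_minimal _ ?_ (c0 j).isClosed_ker
  rw [Submodule.span_le]
  rintro _ ⟨n, rfl⟩
  simp [c0_en]

/-- The coordinate functionals on the quotient. -/
noncomputable def c (j : Σ n : ℕ, Fin (n + 1)) : S.Sp →L[𝕜] 𝕜 where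
  toLinearMap := S.Ker.liftQ (c0 j).toLinearMap (S.Ker_le j)
  cont := continuous_coinduced_dom.2 (c0 j).continuous

lemma c_mk (j : Σ n : ℕ, Fin (n + 1)) (x : El 𝕜) : S.c j (S.Ker.mkQ x) = x j.1 j.2 - x j.1 0 :=
  rfl

/-- The unit vectors. -/
noncomputable def b0 (j : Σ n : ℕ, Fin (n + 1)) : El 𝕜 :=
  lp.single 1 j.1 (PiLp.single 1 j.2 (1 : 𝕜))

lemma norm_b0 (j : Σ n : ℕ, Fin (n + 1)) : ‖b0 (𝕜 := 𝕜) j‖ = 1 := by
  simp [b0]

lemma block_eq (n : ℕ) (y : Blk 𝕜 n) :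
    (lp.single 1 n y : El 𝕜) = ∑ i, (y i - y 0) • b0 ⟨n, i⟩ + (y 0 / S.ht n) • S.en n := by
  have : y = ∑ i, (y i - y 0) • PiLp.single 1 i (1 : 𝕜) + (y 0 / S.ht n) • S.u n := by
    ext i
    simp [u, S.ht_ne, Pi.single_apply]
  conv_lhs => rw [this]
  simp only [b0, en, ← lp.lsingle_apply (𝕜 := 𝕜), map_add, map_sum, _root_.map_smul]

lemma norm_mk_le (x : El 𝕜) : ‖(S.Ker.mkQ x : S.Sp)‖ ≤ ‖x‖ := Submodule.Quotient.norm_mk_le _ _

/-- The data carried by the counterexample. -/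
noncomputable def data : Data 𝕜 S.Sp where
  e := S.Ker.mkQ (S.en 0)
  e_ne := fun h => S.en_zero_notMem ((Submodule.Quotient.mk_eq_zero _).1 h)
  small := fun n => by
    refine ⟨fun i => S.Ker.mkQ (S.ht n • b0 ⟨n, i⟩), ?_, fun i => ?_⟩
    · rw [← map_sum, ← S.mk_en n]
      congr 1
      have : S.u n = ∑ i, S.ht n • PiLp.single 1 i (1 : 𝕜) := by
        ext i
        simp [u, Pi.single_apply]
      simp only [en, this, b0, ← lp.lsingle_apply (𝕜 := 𝕜), map_sum, _root_.map_smul]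
    · refine (S.norm_mk_le _).trans ?_
      rw [norm_smul, norm_b0, norm_ht, mul_one]
  c := S.c
  b := fun j => S.Ker.mkQ (b0 j)
  T := fun N => (Finset.range N).sigma fun _ => Finset.univ
  approx := fun z ε hε => by
    obtain ⟨x, hx, hn⟩ := Submodule.Quotient.norm_mk_lt z hε
    obtain rfl : z = S.Ker.mkQ x := hx.symm
    refine ⟨fun N => ∑ n ∈ Finset.range N, x n 0 / S.ht n, ?_⟩
    have key : ∀ N, ∑ j ∈ (Finset.range N).sigma fun _ => Finset.univ,
        S.c j (S.Ker.mkQ x) • S.Ker.mkQ (b0 j) +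
          (∑ n ∈ Finset.range N, x n 0 / S.ht n) • S.Ker.mkQ (S.en 0)
        = S.Ker.mkQ (∑ n ∈ Finset.range N, lp.single 1 n (x n)) := by
      intro N
      rw [Finset.sum_sigma, Finset.sum_smul, ← Finset.sum_add_distrib, map_sum]
      refine Finset.sum_congr rfl fun n _ => ?_
      rw [S.block_eq n (x n), map_add, map_sum, _root_.map_smul, S.mk_en n]
      simp only [c_mk, _root_.map_smul]
    simp only [key]
    refine ⟨fun N => (S.norm_mk_le _).trans (le_trans ?_ hn.le), ?_⟩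
    · have h1 := lp.norm_sum_single (E := Blk 𝕜) (p := 1) (by simp) x (Finset.range N)
      have h2 := lp.sum_rpow_le_norm_rpow (E := Blk 𝕜) (p := 1) (by simp) x (Finset.range N)
      simp only [ENNReal.toReal_one, Real.rpow_one] at h1 h2
      rw [h1]; exact h2
    · exact ((continuous_quot_mk.tendsto x).comp
        (lp.hasSum_single (p := 1) (by simp) x).tendsto_sum_nat)

lemma complete_Sp : CompleteSpace S.Sp := by
  have := S.complete
  infer_instance

end Scal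

end Pool.Agent.Lib.MP_642244_an
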