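import Pool.Agent.Lib.MP_642244_an.Model
import Pool.Agent.Lib.MP_642244_an.Space

namespace Pool.Agent.Lib.MP_642244_an

theorem abstract_result {𝕜 : Type} [NontriviallyNormedField 𝕜] (S : Scal 𝕜) :
    ∃ (X : Type) (_ : NormedAddCommGroup X) (_ : NormedSpace 𝕜 X)
      (F : Type) (_ : NormedAddCommGroup F) (_ : NormedSpace 𝕜 F)
      (j : ({y : X // y ≠ 0} →₀ 𝕜) →ₗ[𝕜] F), CompleteSpace X ∧ CompleteSpace F ∧
      Function.Injective j ∧ DenseRange j ∧ (∀ μ, ‖j μ‖ = sInf (Rep μ)) ∧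
      IsEmpty (F ≃ₜ+ lp (fun _ : ℕ => F) 1) := by
  have := S.complete
  have := S.complete_Sp
  obtain ⟨F, _, _, j, h1, h2, h3, h4⟩ := exists_model (𝕜 := 𝕜) (X := S.Sp)
  exact ⟨S.Sp, inferInstance, inferInstance, F, inferInstance, inferInstance, j, this, h1, h2, h3,
    h4, Univ.isEmpty_equiv S S.data (univOf j h3 h4 S.data.e_ne)⟩

/-- The reals, to be given the absolute value `|t|^p`. -/
def Kp (_p : ℝ) : Type := ℝ

noncomputable instance (p : ℝ) : Field (Kp p) := Real.instField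

/-- The absolute value `|t|^p`. -/
noncomputable def absP (p : ℝ) (h0 : 0 < p) (h1 : p < 1) : AbsoluteValue ℝ ℝ where
  toFun t := |t| ^ p
  map_mul' s t := by rw [abs_mul, Real.mul_rpow (abs_nonneg _) (abs_nonneg _)]
  nonneg' t := by positivity
  eq_zero' t := by
    simp only [Real.rpow_eq_zero_iff_of_nonneg (abs_nonneg t), abs_eq_zero]
    exact and_iff_left h0.ne'
  add_le' s t := (Real.rpow_le_rpow (abs_nonneg _) (abs_add_le s t) h0.le).trans
    (Real.rpow_add_le_add_rpow (abs_nonneg _) (abs_nonneg _) h0.le h1.le)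

/-- The normed field structure. -/
@[reducible] noncomputable def nnf (p : ℝ) (h0 : 0 < p) (h1 : p < 1) :
    NontriviallyNormedField (Kp p) where
  toNormedField := AbsoluteValue.toNormedField (K := Kp p) (absP p h0 h1)
  non_trivial := ⟨(2 : ℝ), by
    show 1 < |(2 : ℝ)| ^ p
    rw [abs_two]
    exact Real.one_lt_rpow one_lt_two h0⟩

theorem final (p : ℝ) (h0 : 0 < p) (h1 : p < 1) :
    ∃ (X : Type) (_ : NormedAddCommGroup X) (_ : Module ℝ X)
      (F : Type) (_ : NormedAddCommGroup F) (_ : Module ℝ F)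
      (j : ({y : X // y ≠ 0} →₀ ℝ) →ₗ[ℝ] F),
      IsPBanach p X ∧ IsPBanach p F ∧ IsFree p j ∧ IsEmpty (F ≃ₜ+ lp (fun _ : ℕ => F) 1) := by
  let := nnf p h0 h1
  let S : Scal (Kp p) := ⟨RingEquiv.refl ℝ, p, h0, h1, fun _ => rfl⟩
  obtain ⟨X, iX, mX, F, iF, mF, j, c1, c2, h2, h3, h4, h5⟩ := abstract_result S
  exact ⟨X, iX, mX.toModule, F, iF, mF.toModule, j,
    ⟨c1, fun t x => norm_smul (α := Kp p) t x⟩, ⟨c2, fun t x => norm_smul (α := Kp p) t x⟩,
    ⟨h2, h3, h4⟩, h5⟩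

end Pool.Agent.Lib.MP_642244_an
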