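import Pool.Agent.Lib.MP_642244_an.Scal

namespace Pool.Agent.Lib.MP_642244_an

open Filter Topology

variable {𝕜 : Type} [NontriviallyNormedField 𝕜]

lemma norm_sum_le_card {κ Z : Type} [NormedAddCommGroup Z] (s : Finset κ) (f : κ → Z)
    (P : κ → Prop) [DecidablePred P] {r : ℝ} (hr : 0 ≤ r) {M : ℕ}
    (hM : (s.filter P).card ≤ M) (h0 : ∀ k, ¬ P k → f k = 0) (h1 : ∀ k, P k → ‖f k‖ ≤ r) :
    ‖∑ k ∈ s, f k‖ ≤ M * r := by
  rw [← Finset.sum_filter_of_ne (p := P) (fun k _ hk => by by_contra h; exact hk (h0 k h))]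
  refine (norm_sum_le _ _).trans ?_
  refine (Finset.sum_le_card_nsmul _ _ r fun k hk => h1 k (Finset.mem_filter.1 hk).2).trans ?_
  rw [nsmul_eq_mul]
  gcongr

open Classical in
/-- Interpolation by a partition of unity of bounded multiplicity. -/
lemma pou {X Z κ : Type} [NormedAddCommGroup X] [NormedAddCommGroup Z] [NormedSpace 𝕜 Z]
    (s : Finset κ) (Φ : κ → X → 𝕜) (z : κ → Z) (H : X → Z) {h B C : ℝ} {M : ℕ}
    (hh : 0 < h) (hB : 0 ≤ B) (hC : 0 ≤ C)
    (hsum : ∀ x, ∑ k ∈ s, Φ k x = 1) (hle : ∀ k x, ‖Φ k x‖ ≤ 1)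
    (hcard : ∀ x, (s.filter fun k => Φ k x ≠ 0).card ≤ M)
    (hz : ∀ k x, Φ k x ≠ 0 → ‖z k - H x‖ ≤ B * h) (hH : Lip B H)
    (hΦ : ∀ k, Lip (C / h) (Φ k)) :
    (∀ x, ‖∑ k ∈ s, Φ k x • z k - H x‖ ≤ M * (B * h)) ∧
      Lip (2 * M * B + B + 4 * M * C * B) fun x => ∑ k ∈ s, Φ k x • z k := by
  have hrep : ∀ x w, ∑ k ∈ s, Φ k x • z k - w = ∑ k ∈ s, Φ k x • (z k - w) := by
    intro x w
    simp only [smul_sub, Finset.sum_sub_distrib, ← Finset.sum_smul, hsum, one_smul]
  have h1 : ∀ x, ‖∑ k ∈ s, Φ k x • z k - H x‖ ≤ M * (B * h) := by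
    intro x
    rw [hrep]
    refine norm_sum_le_card s _ (fun k => Φ k x ≠ 0) (by positivity) (hcard x)
      (fun k hk => by rw [not_not.1 hk, zero_smul]) fun k hk => ?_
    rw [norm_smul]
    calc _ ≤ 1 * (B * h) := by gcongr; exacts [hle k x, hz k x hk]
      _ = _ := one_mul _
  refine ⟨h1, fun x y => ?_⟩
  have hd := norm_nonneg (x - y)
  have hM : (0 : ℝ) ≤ M := Nat.cast_nonneg _
  rcases le_total h ‖x - y‖ with hxy | hxy
  · have e : ∑ k ∈ s, Φ k x • z k - ∑ k ∈ s, Φ k y • z k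
        = (∑ k ∈ s, Φ k x • z k - H x) - (∑ k ∈ s, Φ k y • z k - H y) + (H x - H y) := by abel
    show ‖∑ k ∈ s, Φ k x • z k - ∑ k ∈ s, Φ k y • z k‖ ≤ _
    rw [e]
    have a1 := h1 x
    have a2 := h1 y
    have a3 := hH x y
    have a4 : M * (B * h) ≤ M * (B * ‖x - y‖) := by gcongr
    have a5 : 0 ≤ 4 * M * C * B * ‖x - y‖ := by positivity
    refine (norm_add_le _ _).trans ((add_le_add_left (norm_sub_le _ _) _).trans ?_)
    nlinarith
  · have e : ∑ k ∈ s, Φ k x • z k - ∑ k ∈ s, Φ k y • z k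
        = ∑ k ∈ s, (Φ k x - Φ k y) • (z k - H x) := by
      simp only [sub_smul, Finset.sum_sub_distrib, ← hrep]
      abel
    show ‖∑ k ∈ s, Φ k x • z k - ∑ k ∈ s, Φ k y • z k‖ ≤ _
    rw [e]
    have hc : (s.filter fun k => Φ k x ≠ 0 ∨ Φ k y ≠ 0).card ≤ 2 * M := by
      rw [Finset.filter_or]
      refine (Finset.card_union_le _ _).trans ?_
      have := hcard x
      have := hcard y
      omega
    have := norm_sum_le_card s (fun k => (Φ k x - Φ k y) • (z k - H x))
      (fun k => Φ k x ≠ 0 ∨ Φ k y ≠ 0) (r := C * (2 * B) * ‖x - y‖) (by positivity) hc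
      (fun k hk => by
        rw [not_or, not_not, not_not] at hk
        simp [hk.1, hk.2])
      (fun k hk => by
        have b1 : ‖z k - H x‖ ≤ 2 * B * h := by
          rcases hk with hk | hk
          · have := hz k x hk
            have : 0 ≤ B * h := by positivity
            linarith
          · have b2 := hz k y hk
            have b3 := hH y x
            rw [norm_sub_rev y x] at b3
            have b4 : B * ‖x - y‖ ≤ B * h := by gcongr
            have := norm_sub_le_norm_sub_add_norm_sub (z k) (H y) (H x)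
            linarith
        rw [norm_smul]
        calc _ ≤ (C / h * ‖x - y‖) * (2 * B * h) := by gcongr; exact hΦ k x y
          _ = _ := by field_simp)
    refine this.trans ?_
    push_cast
    have a5 : 0 ≤ (2 * M * B + B) * ‖x - y‖ := by positivity
    nlinarith

/-- Clamp to `[0,1]`. -/
noncomputable def kap (t : ℝ) : ℝ := max 0 (min t 1)

/-- The hat function. -/
noncomputable def hat (t : ℝ) : ℝ := kap (t + 1) - kap t

lemma hat_eq (t : ℝ) : hat t = max 0 (1 - |t|) := by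
  unfold hat kap
  simp only [max_def, min_def]
  rcases abs_cases t with h | h <;> split_ifs <;> linarith

lemma hat_nonneg (t : ℝ) : 0 ≤ hat t := by rw [hat_eq]; exact le_max_left _ _

lemma hat_le (t : ℝ) : hat t ≤ 1 := by
  rw [hat_eq]; exact max_le zero_le_one (by linarith [abs_nonneg t])

lemma hat_lip (s t : ℝ) : |hat s - hat t| ≤ |s - t| := by
  rw [hat_eq, hat_eq]
  refine (abs_max_sub_max_le_max _ _ _ _).trans (max_le (by simp) ?_)
  have := abs_abs_sub_abs_le_abs_sub t s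
  rw [abs_sub_comm t s] at this
  simpa using this

lemma abs_lt_of_hat {t : ℝ} (h : hat t ≠ 0) : |t| < 1 := by
  by_contra h1
  rw [hat_eq, max_eq_left (by linarith)] at h
  exact h rfl

lemma sum_hat {t : ℝ} {m : ℕ} (h0 : 0 ≤ t) (h1 : t ≤ m) :
    ∑ k ∈ Finset.range (m + 1), hat (t - k) = 1 := by
  have := Finset.sum_range_sub' (fun k : ℕ => kap (t - k + 1)) (m + 1)
  have e : ∀ k : ℕ, kap (t - k + 1) - kap (t - (k + 1 : ℕ) + 1) = hat (t - k) := by
    intro k
    unfold hat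
    congr 2
    push_cast; ring
  simp only [e] at this
  rw [this]
  unfold kap
  push_cast
  rw [min_eq_right (by linarith), max_eq_right zero_le_one, max_eq_left (by
    refine (min_le_left _ _).trans (by linarith)), sub_zero]

lemma abs_prod_sub_prod {ι : Type} [DecidableEq ι] (s : Finset ι) (a b : ι → ℝ) {r : ℝ}
    (ha : ∀ i, |a i| ≤ 1) (hb : ∀ i, |b i| ≤ 1) (h : ∀ i, |a i - b i| ≤ r) :
    |∏ i ∈ s, a i - ∏ i ∈ s, b i| ≤ s.card * r := by
  induction s using Finset.induction_on with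
  | empty => simp
  | insert i s hi ih =>
    rw [Finset.prod_insert hi, Finset.prod_insert hi, Finset.card_insert_of_notMem hi]
    have e : a i * ∏ i ∈ s, a i - b i * ∏ i ∈ s, b i
        = a i * (∏ i ∈ s, a i - ∏ i ∈ s, b i) + (a i - b i) * ∏ i ∈ s, b i := by ring
    have hp : |∏ i ∈ s, b i| ≤ 1 := by
      rw [Finset.abs_prod]
      exact Finset.prod_le_one (fun _ _ => abs_nonneg _) fun i _ => hb i
    have hr : 0 ≤ r := (abs_nonneg _).trans (h i)
    rw [e]
    refine (abs_add_le _ _).trans ?_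
    rw [abs_mul, abs_mul]
    have e1 : |a i| * |∏ i ∈ s, a i - ∏ i ∈ s, b i| ≤ 1 * (s.card * r) := by gcongr; exact ha i
    have e2 : |a i - b i| * |∏ i ∈ s, b i| ≤ r * 1 := by gcongr; exact h i
    push_cast
    linarith

/-- Rescaled clamp onto `[0, 2 n²]`. -/
noncomputable def wcl (n : ℕ) (t : ℝ) : ℝ := max 0 (min (n * t + n ^ 2) (2 * n ^ 2))

lemma wcl_nonneg (n : ℕ) (t : ℝ) : 0 ≤ wcl n t := le_max_left _ _

lemma wcl_le (n : ℕ) (t : ℝ) : wcl n t ≤ ((2 * n ^ 2 : ℕ) : ℝ) := by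
  push_cast
  exact max_le (by positivity) (min_le_right _ _)

lemma wcl_lip (n : ℕ) (s t : ℝ) : |wcl n s - wcl n t| ≤ n * |s - t| := by
  unfold wcl
  refine (abs_max_sub_max_le_max _ _ _ _).trans (max_le (by simp; positivity) ?_)
  refine (abs_min_sub_min_le_max _ _ _ _).trans (max_le ?_ (by simp; positivity))
  rw [add_sub_add_right_eq_sub, ← mul_sub, abs_mul, Nat.abs_cast]

lemma wcl_eq {n : ℕ} {t : ℝ} (h : |t| ≤ n) : wcl n t = n * t + n ^ 2 := by
  unfold wcl
  have hn : (0 : ℝ) ≤ n := Nat.cast_nonneg _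
  obtain ⟨h1, h2⟩ := abs_le.1 h
  rw [min_eq_left (by nlinarith), max_eq_right (by nlinarith)]

/-- Uniformly Lipschitz finite-rank approximation of a map that factors through finitely many
real Lipschitz coordinates. -/
lemma grid (S : Scal 𝕜) {X Z ι : Type} [NormedAddCommGroup X] [NormedAddCommGroup Z]
    [NormedSpace 𝕜 Z] [Fintype ι] [DecidableEq ι] (u : X → ι → ℝ) (G : (ι → ℝ) → Z)
    {A B : ℝ} (hA : 0 ≤ A) (hB : 0 ≤ B)
    (hu : ∀ x y j, |u x j - u y j| ≤ (A * ‖x - y‖) ^ S.p⁻¹)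
    (hG : ∀ a b r, 0 ≤ r → (∀ j, |a j - b j| ≤ r) → ‖G a - G b‖ ≤ B * r ^ S.p) :
    ∃ (L : ℝ) (s : ℕ → Finset (ι → ℕ)) (Φ : ℕ → (ι → ℕ) → X → 𝕜) (z : ℕ → (ι → ℕ) → Z),
      (∀ n k, ∃ C, Lip C (Φ n k)) ∧ (∀ n, Lip L fun x => ∑ k ∈ s n, Φ n k x • z n k) ∧
      ∀ x, Tendsto (fun n => ∑ k ∈ s n, Φ n k x • z n k) atTop (𝓝 (G (u x))) := by
  classical
  set m := Fintype.card ι with hm
  let s : ℕ → Finset (ι → ℕ) := fun n => Fintype.piFinset fun _ => Finset.range (2 * (n + 1) ^ 2 + 1)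
  let φ : ℕ → (ι → ℕ) → X → ℝ := fun n k x => ∏ j, hat (wcl (n + 1) (u x j) - k j)
  let z : ℕ → (ι → ℕ) → Z := fun n k => G fun j => ((k j : ℝ) - (n + 1) ^ 2) / (n + 1)
  let H : ℕ → X → Z := fun n x => G fun j => (wcl (n + 1) (u x j) - (n + 1) ^ 2) / (n + 1)
  set B' := B * (A + 1) with hB'
  set C := (m : ℝ) ^ S.p * A with hC
  have hB'0 : 0 ≤ B' := by positivity
  have hC0 : 0 ≤ C := by positivity
  have hpp : ∀ t : ℝ, 0 ≤ t → (t ^ S.p⁻¹) ^ S.p = t := fun t ht =>
    Real.rpow_inv_rpow ht S.p_pos.ne'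
  have hΦ : ∀ (n : ℕ) k, Lip (C / (1 / ((n : ℝ) + 1)) ^ S.p) fun x => S.ι (φ n k x) := by
    intro n k x y
    have hn : (0 : ℝ) < (n : ℝ) + 1 := by positivity
    rw [← map_sub]
    have h1 := abs_prod_sub_prod Finset.univ (fun j => hat (wcl (n + 1) (u x j) - k j))
      (fun j => hat (wcl (n + 1) (u y j) - k j)) (r := (n + 1) * (A * ‖x - y‖) ^ S.p⁻¹)
      (fun j => by rw [abs_of_nonneg (hat_nonneg _)]; exact hat_le _)
      (fun j => by rw [abs_of_nonneg (hat_nonneg _)]; exact hat_le _)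
      (fun j => by
        refine (hat_lip _ _).trans ?_
        rw [sub_sub_sub_cancel_right]
        refine (wcl_lip _ _ _).trans ?_
        push_cast
        gcongr
        exact hu x y j)
    refine (S.norm_ι_le h1).trans (le_of_eq ?_)
    rw [Finset.card_univ, ← hm, Real.mul_rpow (by positivity) (by positivity),
      Real.mul_rpow (by positivity) (by positivity), hpp _ (by positivity),
      Real.div_rpow zero_le_one hn.le, Real.one_rpow, hC]
    field_simp
  have key : ∀ n : ℕ,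
      (∀ x, ‖∑ k ∈ s n, S.ι (φ n k x) • z n k - H n x‖
        ≤ (2 ^ m : ℕ) * (B' * (1 / ((n : ℝ) + 1)) ^ S.p)) ∧
      Lip (2 * (2 ^ m : ℕ) * B' + B' + 4 * (2 ^ m : ℕ) * C * B')
        fun x => ∑ k ∈ s n, S.ι (φ n k x) • z n k := by
    intro n
    have hn : (0 : ℝ) < (n : ℝ) + 1 := by positivity
    have hne : ∀ k x, S.ι (φ n k x) ≠ 0 → ∀ j, |wcl (n + 1) (u x j) - k j| < 1 := by
      intro k x hk j
      refine abs_lt_of_hat fun h => hk ?_
      rw [map_eq_zero]
      exact Finset.prod_eq_zero (Finset.mem_univ j) h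
    refine pou (s n) (fun k x => S.ι (φ n k x)) (z n) (H n) (by positivity) hB'0 hC0
      (fun x => ?_) (fun k x => ?_) (fun x => ?_) (fun k x hk => ?_) (fun x y => ?_) (hΦ n)
    · rw [← map_sum, ← map_one S.ι]
      congr 1
      rw [← Finset.prod_univ_sum (fun _ => Finset.range (2 * (n + 1) ^ 2 + 1))
        (fun j k => hat (wcl (n + 1) (u x j) - k))]
      exact Finset.prod_eq_one fun j _ => sum_hat (wcl_nonneg _ _) (wcl_le _ _)
    · have : |φ n k x| ≤ 1 := by
        rw [Finset.abs_prod]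
        exact Finset.prod_le_one (fun _ _ => abs_nonneg _) fun j _ => by
          rw [abs_of_nonneg (hat_nonneg _)]; exact hat_le _
      simpa using S.norm_ι_le this
    · refine (Finset.card_le_card (t := Fintype.piFinset fun j =>
        ({⌊wcl (n + 1) (u x j)⌋₊, ⌊wcl (n + 1) (u x j)⌋₊ + 1} : Finset ℕ)) fun k hk => ?_).trans ?_
      · rw [Fintype.mem_piFinset]
        intro j
        obtain ⟨h1, h2⟩ := abs_lt.1 (hne k x (Finset.mem_filter.1 hk).2 j)
        have h3 := Nat.floor_le (wcl_nonneg (n + 1) (u x j))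
        have h4 := Nat.lt_floor_add_one (wcl (n + 1) (u x j))
        have h5 : ((⌊wcl (n + 1) (u x j)⌋₊ : ℕ) : ℝ) < ((k j + 1 : ℕ) : ℝ) := by
          push_cast; linarith
        have h6 : ((k j : ℕ) : ℝ) < ((⌊wcl (n + 1) (u x j)⌋₊ + 2 : ℕ) : ℝ) := by
          push_cast; linarith
        rw [Nat.cast_lt] at h5 h6
        simp only [Finset.mem_insert, Finset.mem_singleton]
        omega
      · rw [Fintype.card_piFinset]
        refine (Finset.prod_le_pow_card _ _ 2 fun j _ => Finset.card_le_two).trans ?_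
        rw [Finset.card_univ]
    · refine (hG _ _ (1 / ((n : ℝ) + 1)) (by positivity) fun j => ?_).trans ?_
      · rw [← sub_div, sub_sub_sub_cancel_right, abs_div, abs_of_pos hn, abs_sub_comm]
        gcongr
        exact (hne k x hk j).le
      · gcongr
        rw [hB']; nlinarith
    · refine (hG _ _ ((A * ‖x - y‖) ^ S.p⁻¹) (by positivity) fun j => ?_).trans ?_
      · rw [← sub_div, sub_sub_sub_cancel_right, abs_div, abs_of_pos hn, div_le_iff₀ hn]
        refine (wcl_lip _ _ _).trans ?_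
        push_cast
        rw [mul_comm]
        gcongr
        exact hu x y j
      · rw [hpp _ (by positivity), hB']
        have := norm_nonneg (x - y)
        nlinarith
  refine ⟨_, s, fun n k x => S.ι (φ n k x), z, fun n k => ⟨_, hΦ n k⟩, fun n => (key n).2,
    fun x => ?_⟩
  have hev : ∀ᶠ n : ℕ in atTop, H n x = G (u x) := by
    have : ∀ᶠ n : ℕ in atTop, ∀ j, |u x j| ≤ n :=
      eventually_all.2 fun j => tendsto_natCast_atTop_atTop.eventually_ge_atTop _
    filter_upwards [this] with n hn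
    have hn0 : (0 : ℝ) < (n : ℝ) + 1 := by positivity
    show G _ = _
    congr 1
    funext j
    rw [wcl_eq (by push_cast; linarith [hn j])]
    push_cast
    field_simp
    ring
  have hlim : Tendsto (fun n : ℕ => ((2 ^ m : ℕ) : ℝ) * (B' * (1 / ((n : ℝ) + 1)) ^ S.p))
      atTop (𝓝 0) := by
    have h1 := (tendsto_one_div_add_atTop_nhds_zero_nat (𝕜 := ℝ)).rpow_const (Or.inr S.p_pos.le)
    rw [Real.zero_rpow S.p_pos.ne'] at h1
    simpa using (h1.const_mul B').const_mul ((2 ^ m : ℕ) : ℝ)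
  rw [tendsto_iff_norm_sub_tendsto_zero]
  refine squeeze_zero' (Eventually.of_forall fun _ => norm_nonneg _) ?_ hlim
  filter_upwards [hev] with n hn
  rw [← hn]
  exact (key n).1 x

end Pool.Agent.Lib.MP_642244_an
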