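import Pool.Agent.Lib.MP_642244_an.Core
import Pool.Agent.Lib.MP_642244_an.Defs

namespace Pool.Agent.Lib.MP_642244_an

open Filter Topology MeasureTheory

variable {𝕜 : Type} [NontriviallyNormedField 𝕜] {X : Type} [NormedAddCommGroup X]

/-- The combination of molecules given by a list. -/
noncomputable def comb (l : List (𝕜 × X × X)) : {y : X // y ≠ 0} →₀ 𝕜 :=
  (l.map fun t => t.1 • (dirac 𝕜 t.2.1 - dirac 𝕜 t.2.2)).sum

/-- The cost of a list. -/
noncomputable def cost (l : List (𝕜 × X × X)) : ℝ :=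
  (l.map fun t => ‖t.1‖ * ‖t.2.1 - t.2.2‖).sum

/-- The costs of the representations. -/
def Rep (μ : {y : X // y ≠ 0} →₀ 𝕜) : Set ℝ := {r | ∃ l, μ = comb l ∧ r = cost l}

lemma dirac_zero : dirac 𝕜 (0 : X) = 0 := by simp [dirac]

lemma dirac_coe (y : {y : X // y ≠ 0}) : dirac 𝕜 (y : X) = Finsupp.single y 1 := by
  simp [dirac, y.2]

lemma cost_nonneg (l : List (𝕜 × X × X)) : 0 ≤ cost l :=
  List.sum_nonneg fun r hr => by
    obtain ⟨t, -, rfl⟩ := List.mem_map.1 hr
    positivity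

lemma comb_append (l l' : List (𝕜 × X × X)) : comb (l ++ l') = comb l + comb l' := by
  simp [comb]

lemma cost_append (l l' : List (𝕜 × X × X)) : cost (l ++ l') = cost l + cost l' := by
  simp [cost]

lemma comb_cons (t : 𝕜 × X × X) (l : List (𝕜 × X × X)) :
    comb (t :: l) = t.1 • (dirac 𝕜 t.2.1 - dirac 𝕜 t.2.2) + comb l := by simp [comb]

lemma cost_cons (t : 𝕜 × X × X) (l : List (𝕜 × X × X)) :
    cost (t :: l) = ‖t.1‖ * ‖t.2.1 - t.2.2‖ + cost l := by simp [cost]

lemma comb_smul (a : 𝕜) (l : List (𝕜 × X × X)) :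
    comb (l.map fun t => (a * t.1, t.2)) = a • comb l := by
  induction l with
  | nil => simp [comb]
  | cons t l ih => rw [List.map_cons, comb_cons, comb_cons, ih, smul_add, smul_smul]

lemma cost_smul (a : 𝕜) (l : List (𝕜 × X × X)) :
    cost (l.map fun t => (a * t.1, t.2)) = ‖a‖ * cost l := by
  induction l with
  | nil => simp [cost]
  | cons t l ih => rw [List.map_cons, cost_cons, cost_cons, ih, mul_add, norm_mul, mul_assoc]

lemma exists_comb (μ : {y : X // y ≠ 0} →₀ 𝕜) : ∃ l, μ = comb l := by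
  induction μ using Finsupp.induction_linear with
  | zero => exact ⟨[], by simp [comb]⟩
  | add f g hf hg =>
    obtain ⟨l, rfl⟩ := hf
    obtain ⟨l', rfl⟩ := hg
    exact ⟨l ++ l', (comb_append _ _).symm⟩
  | single y a => exact ⟨[(a, y, 0)], by simp [comb, dirac_zero, dirac_coe]⟩

lemma Rep_nonempty (μ : {y : X // y ≠ 0} →₀ 𝕜) : (Rep μ).Nonempty :=
  let ⟨l, hl⟩ := exists_comb μ
  ⟨_, l, hl, rfl⟩

lemma Rep_bdd (μ : {y : X // y ≠ 0} →₀ 𝕜) : BddBelow (Rep μ) :=
  ⟨0, by rintro _ ⟨l, -, rfl⟩; exact cost_nonneg l⟩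

lemma inf_le_cost (l : List (𝕜 × X × X)) : sInf (Rep (comb l)) ≤ cost l :=
  csInf_le (Rep_bdd _) ⟨l, rfl, rfl⟩

lemma le_mul_inf {μ : {y : X // y ≠ 0} →₀ 𝕜} {a L : ℝ} (hL : 0 ≤ L)
    (h : ∀ l, μ = comb l → a ≤ L * cost l) : a ≤ L * sInf (Rep μ) := by
  rcases hL.eq_or_lt with rfl | hL
  · obtain ⟨l, hl⟩ := exists_comb μ
    simpa using h l hl
  · rw [← div_le_iff₀' hL]
    refine le_csInf (Rep_nonempty μ) ?_
    rintro _ ⟨l, hl, rfl⟩
    rw [div_le_iff₀' hL]
    exact h l hl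

/-- The free seminorm. -/
noncomputable def freeSemi : Seminorm 𝕜 ({y : X // y ≠ 0} →₀ 𝕜) :=
  Seminorm.ofSMulLE (fun μ => sInf (Rep μ))
    (le_antisymm (by simpa [comb, cost] using inf_le_cost ([] : List (𝕜 × X × X)))
      (le_csInf (Rep_nonempty _) (by rintro _ ⟨l, -, rfl⟩; exact cost_nonneg l)))
    (fun μ ν => by
      rw [← sub_le_iff_le_add]
      refine le_csInf (Rep_nonempty _) ?_
      rintro _ ⟨l, rfl, rfl⟩
      rw [sub_le_comm]
      refine le_csInf (Rep_nonempty _) ?_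
      rintro _ ⟨l', rfl, rfl⟩
      have := inf_le_cost (l ++ l')
      rw [comb_append, cost_append] at this
      linarith)
    (fun a μ => le_mul_inf (norm_nonneg a) fun l hl => by
      have := inf_le_cost (l.map fun t => (a * t.1, t.2))
      rwa [comb_smul, cost_smul, ← hl] at this)

lemma lc_dirac {Z : Type} [AddCommGroup Z] [Module 𝕜 Z] (g : X → Z) (x : X) :
    Finsupp.linearCombination 𝕜 (fun y : {y : X // y ≠ 0} => g y - g 0) (dirac 𝕜 x)
      = g x - g 0 := by
  by_cases h : x = 0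
  · simp [h, dirac_zero]
  · have := dirac_coe (𝕜 := 𝕜) ⟨x, h⟩
    simp only at this
    simp [this]

lemma lc_comb_cons {Z : Type} [AddCommGroup Z] [Module 𝕜 Z] (g : X → Z) (t : 𝕜 × X × X)
    (l : List (𝕜 × X × X)) :
    Finsupp.linearCombination 𝕜 (fun y : {y : X // y ≠ 0} => g y - g 0) (comb (t :: l))
      = t.1 • (g t.2.1 - g t.2.2) +
        Finsupp.linearCombination 𝕜 (fun y : {y : X // y ≠ 0} => g y - g 0) (comb l) := by
  rw [comb_cons, map_add, map_smul, map_sub, lc_dirac, lc_dirac, sub_sub_sub_cancel_right]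

lemma exists_lin {F Z : Type} [NormedAddCommGroup F] [NormedSpace 𝕜 F] [NormedAddCommGroup Z]
    [NormedSpace 𝕜 Z] [CompleteSpace Z] (j : ({y : X // y ≠ 0} →₀ 𝕜) →ₗ[𝕜] F)
    (hd : DenseRange j) (hn : ∀ μ, ‖j μ‖ = sInf (Rep μ)) {x₀ : X} (hx₀ : x₀ ≠ 0) (L : ℝ)
    (g : X → Z) (hg : Lip L g) :
    ∃ T : F →L[𝕜] Z, (∀ μ, ‖T μ‖ ≤ L * ‖μ‖) ∧ ∀ x, T (j (dirac 𝕜 x)) = g x - g 0 := by
  have hL : 0 ≤ L := by
    have := (norm_nonneg _).trans (hg x₀ 0)
    rw [sub_zero] at this
    exact nonneg_of_mul_nonneg_left this (norm_pos_iff.2 hx₀)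
  let T₀ := Finsupp.linearCombination 𝕜 (fun y : {y : X // y ≠ 0} => g y - g 0)
  have hb : ∀ μ, ‖T₀ μ‖ ≤ L * ‖j μ‖ := by
    intro μ
    rw [hn]
    refine le_mul_inf hL fun l hl => ?_
    subst hl
    induction l with
    | nil => simp [comb, cost]
    | cons t l ih =>
      rw [lc_comb_cons, cost_cons, mul_add]
      refine (norm_add_le _ _).trans (add_le_add ?_ ih)
      rw [norm_smul, mul_left_comm]
      gcongr
      exact hg _ _
  exact ⟨T₀.extendOfNorm j, LinearMap.norm_extendOfNorm_apply_le hd L hb, fun x => by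
    rw [LinearMap.extendOfNorm_eq hd ⟨L, hb⟩, lc_dirac]⟩

/-- A model of the free space has the universal property. -/
noncomputable def univOf [NormedSpace 𝕜 X] [CompleteSpace 𝕜] [CompleteSpace X] {F : Type}
    [NormedAddCommGroup F] [NormedSpace 𝕜 F] (j : ({y : X // y ≠ 0} →₀ 𝕜) →ₗ[𝕜] F)
    (hd : DenseRange j) (hn : ∀ μ, ‖j μ‖ = sInf (Rep μ)) {x₀ : X} (hx₀ : x₀ ≠ 0) :
    Univ 𝕜 X F where
  δ := fun x => j (dirac 𝕜 x)
  δ_zero := by simp [dirac_zero]
  δ_lip := fun x y => by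
    have := inf_le_cost [((1 : 𝕜), x, y)]
    rw [← map_sub, hn]
    simpa [comb, cost] using this
  dense := by
    refine Dense.mono ?_ hd
    rintro _ ⟨μ, rfl⟩
    induction μ using Finsupp.induction_linear with
    | zero => simp
    | add f g hf hg => rw [map_add]; exact Submodule.add_mem _ hf hg
    | single y a =>
      have : Finsupp.single y a = a • dirac 𝕜 (y : X) := by simp [dirac_coe]
      rw [this, map_smul]
      exact Submodule.smul_mem _ _ (Submodule.subset_span ⟨y, rfl⟩)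
  linX := exists_lin j hd hn hx₀
  linK := fun L g hg => let ⟨T, _, h⟩ := exists_lin j hd hn hx₀ L g hg; ⟨T, h⟩

/-- The free seminorm is a norm. -/
lemma eq_zero_of_inf {μ : {y : X // y ≠ 0} →₀ 𝕜} (h : sInf (Rep μ) = 0) : μ = 0 := by
  classical
  by_contra hne
  obtain ⟨z, hz⟩ := Finsupp.support_nonempty_iff.2 hne
  obtain ⟨r, hr, hr0, hrs⟩ : ∃ r : ℝ, 0 < r ∧ r ≤ ‖(0 : X) - z‖ ∧
      ∀ y ∈ μ.support, y ≠ z → r ≤ ‖(y : X) - z‖ := by
    have h1 : ∀ᶠ r : ℝ in 𝓝[>] 0, r ≤ ‖(0 : X) - z‖ :=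
      nhdsWithin_le_nhds (eventually_le_nhds (by simpa using z.2))
    have h2 : ∀ᶠ r : ℝ in 𝓝[>] 0, ∀ y ∈ μ.support, y ≠ z → r ≤ ‖(y : X) - z‖ := by
      rw [eventually_all_finset]
      intro y _
      by_cases hy : y = z
      · simp [hy]
      · have : 0 < ‖(y : X) - z‖ := norm_pos_iff.2 (sub_ne_zero.2 fun h => hy (Subtype.ext h))
        exact nhdsWithin_le_nhds ((eventually_le_nhds this).mono fun _ h _ => h)
    have h3 : ∀ᶠ r : ℝ in 𝓝[>] 0, 0 < r := self_mem_nhdsWithin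
    exact (h3.and (h1.and h2)).exists
  let χ : ℝ → X → 𝕜 := fun t x => if ‖x - z‖ < t then 1 else 0
  let T : ℝ → ({y : X // y ≠ 0} →₀ 𝕜) →ₗ[𝕜] 𝕜 := fun t =>
    Finsupp.linearCombination 𝕜 (fun y : {y : X // y ≠ 0} => χ t y - χ t 0)
  have hT : ∀ t ∈ Set.Ioo 0 r, T t μ = μ z := by
    intro t ht
    have h0 : χ t 0 = 0 := if_neg (by linarith [ht.2])
    simp only [T, Finsupp.linearCombination_apply, h0, sub_zero]
    rw [Finsupp.sum, Finset.sum_eq_single z]
    · simp [χ, ht.1]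
    · intro y hy hyz
      have : χ t y = 0 := if_neg (by linarith [ht.2, hrs y hy hyz])
      simp [this]
    · intro h; exact absurd hz h
  have hint : ∀ l : List (𝕜 × X × X), ∃ f : ℝ → ℝ, Integrable f ∧ (∀ t, ‖T t (comb l)‖ ≤ f t) ∧
      ∫ t, f t ≤ cost l := by
    intro l
    induction l with
    | nil => exact ⟨0, integrable_zero _ _ _, by simp [comb], by simp [cost]⟩
    | cons a l ih =>
      obtain ⟨f, hf, hb, hi⟩ := ih
      let I := Set.uIoc ‖a.2.1 - z‖ ‖a.2.2 - z‖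
      have hI : Integrable (I.indicator fun _ => ‖a.1‖) :=
        (integrableOn_const (by simp [I, Set.uIoc])).integrable_indicator measurableSet_uIoc
      refine ⟨fun t => I.indicator (fun _ => ‖a.1‖) t + f t, hI.add hf, fun t => ?_, ?_⟩
      · simp only [T]
        rw [lc_comb_cons]
        refine (norm_add_le _ _).trans (add_le_add ?_ (hb t))
        rw [norm_smul]
        by_cases ht : t ∈ I
        · rw [Set.indicator_of_mem ht]
          refine mul_le_of_le_one_right (norm_nonneg _) ?_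
          simp only [χ]
          split_ifs <;> simp
        · rw [Set.indicator_of_notMem ht]
          have : χ t a.2.1 = χ t a.2.2 := by
            simp only [I, Set.mem_uIoc, not_or, not_and, not_le] at ht
            simp only [χ]
            split_ifs with h1 h2 h2
            · rfl
            · exact absurd (ht.1 h1) h2
            · exact absurd (ht.2 h2) h1
            · rfl
          simp [this]
      · rw [integral_add hI hf, cost_cons, integral_indicator_const _ measurableSet_uIoc]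
        refine add_le_add ?_ hi
        rw [smul_eq_mul, mul_comm]
        gcongr
        simp only [Measure.real, Real.volume_uIoc, ENNReal.toReal_ofReal (abs_nonneg _)]
        have := abs_norm_sub_norm_le (a.2.2 - z) (a.2.1 - z)
        rwa [sub_sub_sub_cancel_right, norm_sub_rev a.2.2 a.2.1] at this
  have hlow : r * ‖μ z‖ ≤ sInf (Rep μ) := by
    refine le_csInf (Rep_nonempty _) ?_
    rintro _ ⟨l, hl, rfl⟩
    obtain ⟨f, hf, hb, hi⟩ := hint l
    refine le_trans ?_ hi
    have hI : Integrable ((Set.Ioo 0 r).indicator fun _ => ‖μ z‖) :=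
      (integrableOn_const (by simp)).integrable_indicator measurableSet_Ioo
    have := integral_mono hI hf fun t => by
      by_cases ht : t ∈ Set.Ioo 0 r
      · rw [Set.indicator_of_mem ht, ← hT t ht, hl]; exact hb t
      · rw [Set.indicator_of_notMem ht]; exact (norm_nonneg _).trans (hb t)
    rw [integral_indicator_const _ measurableSet_Ioo] at this
    simpa [hr.le] using this
  have : 0 < r * ‖μ z‖ := mul_pos hr (norm_pos_iff.2 (Finsupp.mem_support_iff.1 hz))
  linarith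

variable (𝕜 X) in
/-- The span of the symbols, to be given the free seminorm. -/
def Mol : Type := {y : X // y ≠ 0} →₀ 𝕜

noncomputable instance : AddCommGroup (Mol 𝕜 X) :=
  inferInstanceAs (AddCommGroup ({y : X // y ≠ 0} →₀ 𝕜))

noncomputable instance : Module 𝕜 (Mol 𝕜 X) :=
  inferInstanceAs (Module 𝕜 ({y : X // y ≠ 0} →₀ 𝕜))

/-- The identity map. -/
noncomputable def toMol : ({y : X // y ≠ 0} →₀ 𝕜) ≃ₗ[𝕜] Mol 𝕜 X := LinearEquiv.refl _ _

/-- The seminorm on `Mol`. -/
noncomputable def molSemi : Seminorm 𝕜 (Mol 𝕜 X) := freeSemi.comp toMol.symm.toLinearMap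

noncomputable instance : SeminormedAddCommGroup (Mol 𝕜 X) :=
  molSemi.toAddGroupSeminorm.toSeminormedAddCommGroup

noncomputable instance : NormedSpace 𝕜 (Mol 𝕜 X) where
  norm_smul_le a μ := (molSemi.smul' a μ).le

theorem exists_model : ∃ (F : Type) (_ : NormedAddCommGroup F) (_ : NormedSpace 𝕜 F)
    (j : ({y : X // y ≠ 0} →₀ 𝕜) →ₗ[𝕜] F), CompleteSpace F ∧ Function.Injective j ∧
      DenseRange j ∧ ∀ μ, ‖j μ‖ = sInf (Rep μ) := by
  let j : ({y : X // y ≠ 0} →₀ 𝕜) →ₗ[𝕜] UniformSpace.Completion (Mol 𝕜 X) :=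
    (UniformSpace.Completion.toComplₗᵢ (𝕜 := 𝕜)).toLinearMap.comp toMol.toLinearMap
  have hn : ∀ μ, ‖j μ‖ = sInf (Rep μ) := fun μ =>
    UniformSpace.Completion.norm_coe (toMol μ)
  refine ⟨_, inferInstance, inferInstance, j, inferInstance, ?_, ?_, hn⟩
  · rw [injective_iff_map_eq_zero]
    intro μ hμ
    exact eq_zero_of_inf (by rw [← hn, hμ, norm_zero])
  · exact UniformSpace.Completion.denseRange_coe (α := Mol 𝕜 X)

end Pool.Agent.Lib.MP_642244_an
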