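import Mathlib

namespace Pool.Agent.Lib.MP_642244_an

open Filter Topology

/-- The real field with the absolute value `|t|^p`. -/
structure Scal (𝕜 : Type) [NontriviallyNormedField 𝕜] where
  ι : ℝ ≃+* 𝕜
  p : ℝ
  p_pos : 0 < p
  p_lt : p < 1
  norm_ι : ∀ t, ‖ι t‖ = |t| ^ p

variable {𝕜 : Type} [NontriviallyNormedField 𝕜]

namespace Scal

variable (S : Scal 𝕜)

lemma norm_eq (a : 𝕜) : ‖a‖ = |S.ι.symm a| ^ S.p := by
  rw [← S.norm_ι, RingEquiv.apply_symm_apply]

lemma abs_symm (a : 𝕜) : |S.ι.symm a| = ‖a‖ ^ S.p⁻¹ := by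
  rw [S.norm_eq, Real.rpow_rpow_inv (abs_nonneg _) S.p_pos.ne']

lemma abs_symm_le {a : 𝕜} {r : ℝ} (h : ‖a‖ ≤ r) : |S.ι.symm a| ≤ r ^ S.p⁻¹ := by
  rw [S.abs_symm]
  exact Real.rpow_le_rpow (norm_nonneg _) h (inv_nonneg.2 S.p_pos.le)

lemma norm_ι_le {t r : ℝ} (h : |t| ≤ r) : ‖S.ι t‖ ≤ r ^ S.p := by
  rw [S.norm_ι]
  exact Real.rpow_le_rpow (abs_nonneg _) h S.p_pos.le

lemma cont_ι : Continuous S.ι := by
  refine continuous_of_continuousAt_zero S.ι.toRingHom ?_
  rw [ContinuousAt, map_zero, tendsto_zero_iff_norm_tendsto_zero]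
  have : (fun x : ℝ => ‖S.ι.toRingHom x‖) = fun x => |x| ^ S.p := funext S.norm_ι
  rw [this]
  have h : Continuous fun x : ℝ => |x| ^ S.p :=
    continuous_abs.rpow_const fun _ => Or.inr S.p_pos.le
  simpa [Real.zero_rpow S.p_pos.ne'] using h.tendsto 0

lemma cont_symm : Continuous S.ι.symm := by
  refine continuous_of_continuousAt_zero S.ι.symm.toRingHom ?_
  rw [ContinuousAt, map_zero, tendsto_zero_iff_norm_tendsto_zero]
  have : (fun x : 𝕜 => ‖S.ι.symm.toRingHom x‖) = fun x => ‖x‖ ^ S.p⁻¹ := funext S.abs_symm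
  rw [this]
  have h : Continuous fun x : 𝕜 => ‖x‖ ^ S.p⁻¹ :=
    continuous_norm.rpow_const fun _ => Or.inr (inv_nonneg.2 S.p_pos.le)
  simpa [Real.zero_rpow (inv_pos.2 S.p_pos).ne'] using h.tendsto 0

include S in
lemma complete : CompleteSpace 𝕜 := by
  let e : 𝕜 ≃ᵤ ℝ :=
    { toEquiv := S.ι.symm.toEquiv
      uniformContinuous_toFun :=
        uniformContinuous_addMonoidHom_of_continuous (f := S.ι.symm.toRingHom) S.cont_symm
      uniformContinuous_invFun :=
        uniformContinuous_addMonoidHom_of_continuous (f := S.ι.toRingHom) S.cont_ι }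
  exact e.completeSpace_iff.2 inferInstance

include S in
lemma charZero : CharZero 𝕜 := S.ι.toRingHom.charZero_iff S.ι.injective |>.1 inferInstance

include S in
lemma dense_rat : DenseRange (fun q : ℚ => (q : 𝕜)) := by
  have := S.charZero
  have h : (fun q : ℚ => (q : 𝕜)) = S.ι ∘ (fun q : ℚ => (q : ℝ)) := by
    funext q; simp
  rw [h]
  exact S.ι.surjective.denseRange.comp Rat.denseRange_cast S.cont_ι

include S in
lemma map_smul {E G : Type} [NormedAddCommGroup E] [NormedSpace 𝕜 E] [NormedAddCommGroup G]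
    [NormedSpace 𝕜 G] (f : E →+ G) (hf : Continuous f) (c : 𝕜) (x : E) :
    f (c • x) = c • f x := by
  refine S.dense_rat.induction_on c (isClosed_eq (by fun_prop) (by fun_prop)) fun q => ?_
  exact map_ratCast_smul f 𝕜 𝕜 q x

/-- A continuous additive map as a continuous linear map. -/
def toCLM {E G : Type} [NormedAddCommGroup E] [NormedSpace 𝕜 E] [NormedAddCommGroup G]
    [NormedSpace 𝕜 G] (f : E →+ G) (hf : Continuous f) : E →L[𝕜] G where
  toFun := f
  map_add' := f.map_add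
  map_smul' := S.map_smul f hf
  cont := hf

end Scal

/-- Lipschitz bound. -/
def Lip {X Z : Type} [NormedAddCommGroup X] [NormedAddCommGroup Z] (L : ℝ) (g : X → Z) : Prop :=
  ∀ x y, ‖g x - g y‖ ≤ L * ‖x - y‖

/-- The structure carried by the counterexample. -/
structure Data (𝕜 : Type) [NontriviallyNormedField 𝕜] (X : Type) [NormedAddCommGroup X]
    [NormedSpace 𝕜 X] where
  e : X
  e_ne : e ≠ 0
  small : ∀ n : ℕ, ∃ ξ : Fin (n + 1) → X, ∑ i, ξ i = e ∧ ∀ i, ‖ξ i‖ ≤ 1 / ((n : ℝ) + 1)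
  c : (Σ n : ℕ, Fin (n + 1)) → X →L[𝕜] 𝕜
  b : (Σ n : ℕ, Fin (n + 1)) → X
  T : ℕ → Finset (Σ n : ℕ, Fin (n + 1))
  approx : ∀ x ε, 0 < ε → ∃ s : ℕ → 𝕜,
    (∀ N, ‖∑ j ∈ T N, c j x • b j + s N • e‖ ≤ ‖x‖ + ε) ∧
    Tendsto (fun N => ∑ j ∈ T N, c j x • b j + s N • e) atTop (𝓝 x)

variable {X : Type} [NormedAddCommGroup X] [NormedSpace 𝕜 X]

lemma telescope {ι : Type} [DecidableEq ι] (φ : X → ℝ) (η : ι → X) (ρ : ℝ)
    (h : ∀ i a, |φ (a + η i) - φ a| ≤ ρ) (s : Finset ι) (x : X) :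
    |φ (x + ∑ i ∈ s, η i) - φ x| ≤ s.card * ρ := by
  induction s using Finset.induction_on with
  | empty => simp
  | insert i s hi ih =>
    rw [Finset.sum_insert hi, Finset.card_insert_of_notMem hi]
    have h1 := h i (x + ∑ i ∈ s, η i)
    have h2 : x + (η i + ∑ i ∈ s, η i) = x + ∑ i ∈ s, η i + η i := by abel
    rw [h2]
    push_cast
    calc _ ≤ |φ (x + ∑ i ∈ s, η i + η i) - φ (x + ∑ i ∈ s, η i)|
          + |φ (x + ∑ i ∈ s, η i) - φ x| := abs_sub_le _ _ _
      _ ≤ _ := by linarith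

/-- Scalar Lipschitz functions are invariant along `e`. -/
lemma Data.inv_scalar (S : Scal 𝕜) (D : Data 𝕜 X) {L : ℝ} {ψ : X → 𝕜} (h : Lip L ψ) (x : X)
    (s : 𝕜) : ψ (x + s • D.e) = ψ x := by
  set C : ℝ := |L| * ‖s‖ with hC
  have hC0 : 0 ≤ C := by positivity
  have key : ∀ n : ℕ, |S.ι.symm (ψ (x + s • D.e)) - S.ι.symm (ψ x)|
      ≤ C ^ S.p⁻¹ * ((n : ℝ) + 1) ^ (-(S.p⁻¹ - 1)) := by
    intro n
    obtain ⟨ξ, hξ, hs⟩ := D.small n
    have hn : (0 : ℝ) < (n : ℝ) + 1 := by positivity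
    have := telescope (fun a => S.ι.symm (ψ a)) (fun i => s • ξ i) ((C / (n + 1)) ^ S.p⁻¹)
      (fun i a => by
        rw [← map_sub]
        refine S.abs_symm_le ((h _ _).trans ?_)
        rw [add_sub_cancel_left, norm_smul]
        calc L * (‖s‖ * ‖ξ i‖) ≤ |L| * (‖s‖ * (1 / ((n : ℝ) + 1))) := by
              gcongr
              · exact le_abs_self _
              · exact hs i
          _ = _ := by rw [hC]; ring) Finset.univ x
    rw [← Finset.smul_sum, hξ] at this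
    refine this.trans (le_of_eq ?_)
    rw [Finset.card_univ, Fintype.card_fin, Real.div_rpow hC0 hn.le, neg_sub,
      Real.rpow_sub hn, Real.rpow_one]
    push_cast
    ring
  have hpos : 0 < S.p⁻¹ - 1 := by
    have := (one_lt_inv₀ S.p_pos).2 S.p_lt
    linarith
  have hlim : Tendsto (fun n : ℕ => C ^ S.p⁻¹ * ((n : ℝ) + 1) ^ (-(S.p⁻¹ - 1))) atTop (𝓝 0) := by
    have h1 : Tendsto (fun n : ℕ => (n : ℝ) + 1) atTop atTop :=
      tendsto_atTop_add_const_right _ _ tendsto_natCast_atTop_atTop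
    simpa using ((tendsto_rpow_neg_atTop hpos).comp h1).const_mul (C ^ S.p⁻¹)
  have h0 := ge_of_tendsto' hlim key
  have h1 : S.ι.symm (ψ (x + s • D.e)) = S.ι.symm (ψ x) :=
    sub_eq_zero.1 (abs_nonpos_iff.1 h0)
  exact S.ι.symm.injective h1

lemma Data.mem_span (S : Scal 𝕜) (D : Data 𝕜 X) {z : X} (hz : ∀ j, D.c j z = 0) :
    ∃ s : 𝕜, z = s • D.e := by
  have := S.complete
  obtain ⟨s, -, hs⟩ := D.approx z 1 one_pos
  simp only [hz, zero_smul, Finset.sum_const_zero, zero_add] at hs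
  have hcl : IsClosed ((Submodule.span 𝕜 {D.e} : Submodule 𝕜 X) : Set X) :=
    Submodule.closed_of_finiteDimensional _
  have : z ∈ (Submodule.span 𝕜 {D.e} : Submodule 𝕜 X) :=
    hcl.mem_of_tendsto hs (Eventually.of_forall fun N =>
      Submodule.smul_mem _ _ (Submodule.mem_span_singleton_self _))
  obtain ⟨a, ha⟩ := Submodule.mem_span_singleton.1 this
  exact ⟨a, ha.symm⟩

/-- Rigidity of Lipschitz self-maps along `e`. -/
lemma Data.rigid (S : Scal 𝕜) (D : Data 𝕜 X) {L : ℝ} {f : X → X} (h : Lip L f) :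
    ∃ c : 𝕜, ∀ x (s : 𝕜), f (x + s • D.e) - f x = (c * s) • D.e := by
  have he : 0 < ‖D.e‖ := norm_pos_iff.2 D.e_ne
  have h1 : ∀ x (s : 𝕜), ∃ γ : 𝕜, f (x + s • D.e) - f x = γ • D.e := by
    intro x s
    refine D.mem_span S fun j => ?_
    have hl : Lip (‖D.c j‖ * L) fun a => D.c j (f a) := fun a b => by
      rw [← map_sub, mul_assoc]
      exact ((D.c j).le_opNorm _).trans (by gcongr; exact h a b)
    rw [map_sub, D.inv_scalar S hl, sub_self]
  choose γ hγ using h1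
  have hinj : ∀ a b : 𝕜, a • D.e = b • D.e → a = b := fun a b hab =>
    smul_left_injective 𝕜 D.e_ne hab
  have hlip : ∀ s x y, ‖γ x s - γ y s‖ * ‖D.e‖ ≤ 2 * L * ‖x - y‖ := by
    intro s x y
    rw [← norm_smul, sub_smul, ← hγ, ← hγ]
    have e1 : f (x + s • D.e) - f x - (f (y + s • D.e) - f y)
        = (f (x + s • D.e) - f (y + s • D.e)) - (f x - f y) := by abel
    rw [e1]
    have e2 := h (x + s • D.e) (y + s • D.e)
    rw [add_sub_add_right_eq_sub] at e2
    have e3 := h x y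
    refine (norm_sub_le _ _).trans (by linarith)
  have hinv : ∀ (s : 𝕜) x (t : 𝕜), γ (x + t • D.e) s = γ x s := by
    intro s x t
    refine D.inv_scalar S (L := 2 * L / ‖D.e‖) (ψ := fun a => γ a s) (fun a b => ?_) x t
    rw [div_mul_eq_mul_div, le_div_iff₀ he]
    exact hlip s a b
  have hadd : ∀ x s t, γ x (s + t) = γ x s + γ x t := by
    intro x s t
    apply hinj
    rw [add_smul, ← hinv s x t, ← hγ, ← hγ, ← hγ, add_smul]
    have : x + (s • D.e + t • D.e) = x + t • D.e + s • D.e := by abel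
    rw [this]; abel
  have hlin : ∀ x s, γ x s = s * γ x 1 := by
    intro x s
    let g : 𝕜 →+ 𝕜 := AddMonoidHom.mk' (γ x) (hadd x)
    have hg : Continuous g := by
      refine AddMonoidHomClass.continuous_of_bound g L fun t => ?_
      have e1 := h (x + t • D.e) x
      rw [hγ, add_sub_cancel_left, norm_smul, norm_smul, ← mul_assoc] at e1
      exact le_of_mul_le_mul_right e1 he
    have e2 : g s = s * g 1 := by simpa using S.map_smul g hg s 1
    exact e2
  have hconst : ∀ x, γ x 1 = γ 0 1 := by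
    intro x
    by_contra hne
    have hpos : 0 < ‖γ x 1 - γ 0 1‖ * ‖D.e‖ := mul_pos (norm_pos_iff.2 (sub_ne_zero.2 hne)) he
    obtain ⟨s, hs⟩ := NormedField.exists_lt_norm 𝕜
      (2 * L * ‖x - 0‖ / (‖γ x 1 - γ 0 1‖ * ‖D.e‖))
    have e1 := hlip s x 0
    rw [hlin x s, hlin 0 s, ← mul_sub, norm_mul, mul_assoc] at e1
    rw [div_lt_iff₀ hpos] at hs
    linarith
  exact ⟨γ 0 1, fun x s => by rw [hγ, hlin, hconst, mul_comm]⟩

end Pool.Agent.Lib.MP_642244_an
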